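import Pool.Agent.Helper72.LS.ExtDef

/-!
LS-P8: the choice of the extremal counterexample.
-/

namespace Pool.Agent.Helper74.LS

open Finset
open scoped Classical
open Pool.Agent.Helper72.LS

theorem Dj_zero (k : ℤ) : Dj k 0 = 0 := by
  unfold Dj c2
  norm_num

/-- the value at a negative index is not positive -/
theorem val_neg {V : Type} [Fintype V] (G : SimpleGraph V) {k j h : ℤ} (hk : 1 ≤ k)
    (hj : j < 0) (hv : Valid k j (psG G k h)) : phG G k j h ≤ 0 := by
  obtain ⟨h1, h2, h3⟩ := hv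
  have h4 := h3 (by linarith)
  rw [Dj_succ] at h4
  have hc := phi_cost k j h (Fintype.card V) (em G) (tm G)
  have hn := cost_nonneg G k
  have hps : pos k h (Fintype.card V) (em G) = psG G k h := rfl
  rw [hps] at hc
  have hph : phi k j h (Fintype.card V) (em G) (tm G) = phG G k j h := rfl
  rw [hph] at hc
  set d := psG G k h - Dj k j with hd
  have hd0 : 0 ≤ d := by linarith
  have hd1 : d ≤ k - j := by linarith
  have e1 : (k - 3 * j - 1) * d ≤ (k - 3 * j - 1) * (k - j) :=
    mul_le_mul_of_nonneg_left hd1 (by linarith)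
  have e2 : j * (k - j) * (k + 1 - j) + (k - 3 * j - 1) * (k - j)
      = (j + 1) * ((k - j) * (k - j - 1)) := by ring
  have e3 : 0 ≤ (k - j) * (k - j - 1) := mul_nonneg (by linarith) (by linarith)
  have e4 : (j + 1) * ((k - j) * (k - j - 1)) ≤ 0 :=
    mul_nonpos_of_nonpos_of_nonneg (by linarith) e3
  linarith

/-- the value at the last index -/
theorem val_last {V : Type} [Fintype V] (G : SimpleGraph V) {k h : ℤ} :
    3 * phG G k (k - 1) h ≤ 2 * (k - 1) * (1 - (psG G k h - Dj k (k - 1))) := by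
  have hc := phi_cost k (k - 1) h (Fintype.card V) (em G) (tm G)
  have hn := cost_nonneg G k
  have hps : pos k h (Fintype.card V) (em G) = psG G k h := rfl
  rw [hps] at hc
  have hph : phi k (k - 1) h (Fintype.card V) (em G) (tm G) = phG G k (k - 1) h := rfl
  rw [hph] at hc
  nlinarith

theorem val_bdd {V : Type} [Fintype V] (G : SimpleGraph V) {k j h : ℤ} (hk : 1 ≤ k)
    (hv : Valid k j (psG G k h)) : 3 * phG G k j h ≤ k * k * (k + 1) + 3 * k * k := by
  rcases lt_or_ge j 0 with hj | hj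
  · have := val_neg G hk hj hv
    nlinarith [mul_nonneg (show (0 : ℤ) ≤ k by linarith) (show (0 : ℤ) ≤ k by linarith)]
  · obtain ⟨h1, h2, h3⟩ := hv
    rcases lt_or_eq_of_le h1 with h4 | h4
    · have h5 := h3 h4
      rw [Dj_succ] at h5
      have hc := phi_cost k j h (Fintype.card V) (em G) (tm G)
      have hn := cost_nonneg G k
      have hps : pos k h (Fintype.card V) (em G) = psG G k h := rfl
      rw [hps] at hc
      have hph : phi k j h (Fintype.card V) (em G) (tm G) = phG G k j h := rfl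
      rw [hph] at hc
      set d := psG G k h - Dj k j with hd
      have hd0 : 0 ≤ d := by linarith
      have hd1 : d ≤ k - j := by linarith
      have e1 : (k - 3 * j - 1) * d ≤ k * d := by
        have : (k - (k - 3 * j - 1)) * d ≥ 0 := mul_nonneg (by linarith) hd0
        linarith
      have e2 : k * d ≤ k * k := mul_le_mul_of_nonneg_left (by linarith) (by linarith)
      have e3 : j * (k - j) * (k + 1 - j) ≤ k * k * (k + 1) := by
        have a1 : j * (k - j) ≤ k * k := by
          have := mul_le_mul (show j ≤ k by linarith) (show k - j ≤ k by linarith)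
            (show 0 ≤ k - j by linarith) (show 0 ≤ k by linarith)
          exact this
        have a2 : 0 ≤ j * (k - j) := mul_nonneg hj (by linarith)
        exact mul_le_mul a1 (by linarith) (by linarith) (by positivity)
      have e4 : 0 ≤ k * k := by positivity
      linarith
    · subst h4
      have := val_last G (k := k) (h := h)
      have e1 : 2 * (k - 1) * (1 - (psG G k h - Dj k (k - 1))) ≤ 2 * (k - 1) * 1 :=
        mul_le_mul_of_nonneg_left (by linarith) (by linarith)
      have e4 : k ≤ k * k := by nlinarith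
      have e5 : 0 ≤ k * k * k := by positivity
      nlinarith

/-- transport to `Fin n` -/
theorem transport {W : Type} [Fintype W] (G : SimpleGraph W) :
    ∃ Γ : SimpleGraph (Fin (Fintype.card W)), (∀ k h, psG Γ k h = psG G k h) ∧
      ∀ k j h, phG Γ k j h = phG G k j h := by
  let e := Fintype.equivFin W
  let Γ : SimpleGraph (Fin (Fintype.card W)) := G.comap e.symm
  have hadj : ∀ x y, Γ.Adj (e x) (e y) ↔ G.Adj x y := by
    intro x y
    simp [Γ, SimpleGraph.comap_adj]
  have h1 := em_congr G Γ e hadj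
  have h2 := tm_congr G Γ e hadj
  refine ⟨Γ, ?_, ?_⟩
  · intro k h
    unfold psG
    rw [h1, Fintype.card_fin]
  · intro k j h
    unfold phG
    rw [h1, h2, Fintype.card_fin]

theorem exists_ext (k : ℤ) (hk : 1 ≤ k) (V : Type) [Fintype V] (G : SimpleGraph V) (h j : ℤ)
    (hv : Valid k j (psG G k h)) (hpos : 0 < phG G k j h) :
    ∃ (W : Type) (_ : Fintype W) (Γ : SimpleGraph W) (δ h' P : ℤ), Ext k δ h' P Γ := by
  -- the largest value
  have hmax : ∃ P : ℤ, (∃ n : ℕ, ∃ (Γ : SimpleGraph (Fin n)) (h j : ℤ),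
      Valid k j (psG Γ k h) ∧ phG Γ k j h = P) ∧ ∀ z : ℤ, (∃ n : ℕ, ∃ (Γ : SimpleGraph (Fin n))
      (h j : ℤ), Valid k j (psG Γ k h) ∧ phG Γ k j h = z) → z ≤ P := by
    apply Int.exists_greatest_of_bdd
    · refine ⟨k * k * (k + 1) + 3 * k * k, ?_⟩
      rintro z ⟨n, Γ, h, j, hv, rfl⟩
      have h1 := val_bdd Γ hk hv
      have h2 : 0 ≤ k * k * (k + 1) + 3 * k * k := by positivity
      rcases le_or_gt (phG Γ k j h) 0 with h3 | h3
      · linarith
      · linarith
    · obtain ⟨Γ, h1, h2⟩ := transport G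
      exact ⟨phG G k j h, Fintype.card V, Γ, h, j, by rw [h1]; exact hv, h2 k j h⟩
  obtain ⟨P, hPatt, hPmax⟩ := hmax
  have hall : ∀ (W : Type) [Fintype W] (Γ : SimpleGraph W) (h' j : ℤ),
      Valid k j (psG Γ k h') → phG Γ k j h' ≤ P := by
    intro W _ Γ h' j hv
    obtain ⟨Γ', h1, h2⟩ := transport Γ
    exact hPmax _ ⟨Fintype.card W, Γ', h', j, by rw [h1]; exact hv, h2 k j h'⟩
  have hP1 : 1 ≤ P := lt_of_lt_of_le hpos (hall V G h j hv)
  -- the least number of vertices
  let n := Nat.find hPatt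
  have hn : ∃ (Γ : SimpleGraph (Fin n)) (h j : ℤ), Valid k j (psG Γ k h) ∧ phG Γ k j h = P :=
    Nat.find_spec hPatt
  have hnmin : ∀ m : ℕ, m < n → ¬ ∃ (Γ : SimpleGraph (Fin m)) (h j : ℤ),
      Valid k j (psG Γ k h) ∧ phG Γ k j h = P := fun m hm => Nat.find_min hPatt hm
  have hj0 : ∀ {W : Type} [Fintype W] (Γ : SimpleGraph W) (h' j : ℤ),
      Valid k j (psG Γ k h') → phG Γ k j h' = P → 0 ≤ j := by
    intro W _ Γ h' j hv hP
    by_contra hj
    have := val_neg Γ hk (not_le.1 hj) hv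
    linarith
  -- the least position
  have hmin : ∃ r : ℤ, (∃ (Γ : SimpleGraph (Fin n)) (h j : ℤ), Valid k j (psG Γ k h) ∧
      phG Γ k j h = P ∧ psG Γ k h = r) ∧ ∀ z : ℤ, (∃ (Γ : SimpleGraph (Fin n)) (h j : ℤ),
      Valid k j (psG Γ k h) ∧ phG Γ k j h = P ∧ psG Γ k h = z) → r ≤ z := by
    apply Int.exists_least_of_bdd
    · refine ⟨0, ?_⟩
      rintro z ⟨Γ, h, j, hv, hP, rfl⟩
      have h0 := hj0 Γ h j hv hP
      have h1 := Dj_mono (k := k) h0 (by linarith [hv.1])
      rw [Dj_zero] at h1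
      linarith [hv.2.1]
    · obtain ⟨Γ, h, j, hv, hP⟩ := hn
      exact ⟨_, Γ, h, j, hv, hP, rfl⟩
  obtain ⟨r, ⟨Γ, h0, δ0, hv0, hP0, hr0⟩, hrmin⟩ := hmin
  have hδ0 := hj0 Γ h0 δ0 hv0 hP0
  -- the index with the strict upper bound
  have hidx : ∃ δ, 0 ≤ δ ∧ δ ≤ k - 1 ∧ Dj k δ ≤ psG Γ k h0 ∧ psG Γ k h0 < Dj k (δ + 1) ∧
      phG Γ k δ h0 = P := by
    obtain ⟨h1, h2, h3⟩ := hv0
    rcases lt_or_ge (psG Γ k h0) (Dj k (δ0 + 1)) with h4 | h4
    · exact ⟨δ0, hδ0, h1, h2, h4, hP0⟩
    · rcases lt_or_eq_of_le h1 with h5 | h5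
      · have h6 : psG Γ k h0 = Dj k (δ0 + 1) := le_antisymm (h3 h5) h4
        refine ⟨δ0 + 1, by linarith, by linarith, le_of_eq h6.symm, ?_, ?_⟩
        · rw [Dj_succ k (δ0 + 1)]
          linarith
        · have h7 : phG Γ k (δ0 + 1) h0 = phG Γ k δ0 h0 - (psG Γ k h0 - Dj k (δ0 + 1)) :=
            phi_succ k δ0 h0 (Fintype.card (Fin n)) (em Γ) (tm Γ)
          rw [h7, h6, hP0]
          ring
      · exfalso
        have h6 := val_last Γ (k := k) (h := h0)
        rw [h5] at hP0 h4
        rw [Dj_succ] at h4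
        rw [hP0] at h6
        have h7 : 2 * (k - 1) * (1 - (psG Γ k h0 - Dj k (k - 1))) ≤ 0 :=
          mul_nonpos_of_nonneg_of_nonpos (by linarith) (by linarith)
        linarith
  obtain ⟨δ, hδ0', hδ1, hr1, hr2, hval⟩ := hidx
  refine ⟨Fin n, inferInstance, Γ, δ, h0, P, ?_⟩
  refine
    { hk := hk
      hδ0 := hδ0'
      hδ := hδ1
      hP := hP1
      hr := hr1
      hr' := hr2
      val := hval
      all := hall
      small := ?_
      left := ?_ }
  · intro W _ Γ' h' j hcard hv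
    have h1 := hall W Γ' h' j hv
    have h2 : phG Γ' k j h' ≠ P := by
      intro hP
      obtain ⟨Γ2, h3, h4⟩ := transport Γ'
      rw [Fintype.card_fin] at hcard
      exact hnmin _ hcard ⟨Γ2, h', j, by rw [h3]; exact hv, by rw [h4]; exact hP⟩
    omega
  · intro Γ' h' j hv hlt
    have h1 := hall (Fin n) Γ' h' j hv
    have h2 : phG Γ' k j h' ≠ P := by
      intro hP
      have := hrmin _ ⟨Γ', h', j, hv, hP, rfl⟩
      linarith
    omega

end Pool.Agent.Helper74.LS
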